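import Mathlib
import Pool.Agent.H12.Walk

set_option autoImplicit false

namespace Pool.Agent.Results.MP_46c8ea_co.ClosedForm

open Filter Topology

/-- Vertex j(t) of the walk that starts at -n and has list of steps x. -/
def vtx (n : ℕ) (x : List ℤ) (t : ℕ) : ℤ := -(n : ℤ) + (x.take t).sum

/-- X_n(κ): admissible walks from -n to n with at least two steps, all steps in {-2, 4},
exactly κ steps equal to -2. -/
def X (n κ : ℕ) : Set (List ℤ) :=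
  {x | 2 ≤ x.length ∧ (∀ s ∈ x, s = -2 ∨ s = 4) ∧ x.count (-2) = κ ∧ x.sum = 2 * n ∧
    ∀ t, 1 ≤ t → t < x.length → vtx n x t ≠ n ∧ vtx n x t ≠ -n}

/-- h_1(x), the product over the interior vertices t = 1, ..., ν (the walk has ν + 1 steps). -/
noncomputable def h1 (n : ℕ) (x : List ℤ) : ℝ :=
  ∏ t ∈ Finset.Ico 1 x.length, 1 / ((n : ℝ) ^ 2 - (vtx n x t : ℝ) ^ 2)

/-- B_κ(n). -/
noncomputable def B (κ n : ℕ) : ℝ := ∑ᶠ x ∈ X n κ, h1 n x

theorem result :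
    (∀ m : ℕ, (X (2 * m + 1) 3).Finite) ∧
    (∀ m : ℕ, 2 ≤ m → B 3 (2 * m + 1) =
      3 * (m + 2) / (4 ^ (m + 5) * (m : ℝ) ^ 2 * (m + 1) ^ 3 * (2 * m - 1) * (2 * m + 3) *
        (2 * m).factorial)) ∧
    (∀ C : ℝ, 0 < C → ∀ᶠ m : ℕ in atTop, |B 3 (2 * m + 1)| < C ^ m / m.factorial) ∧
    (∀ m : ℕ, 2 ≤ m → (1 / 2 ^ 20) ^ m / (m.factorial : ℝ) ^ 2 ≤ |B 3 (2 * m + 1)|) ∧
    Tendsto (fun m : ℕ => B 3 (2 * m + 1) / (3 / (4 ^ (m + 6) * (m : ℝ) ^ 6 * (2 * m).factorial)))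
      atTop (𝓝 1) := by
  have h : ∀ m : ℕ, 2 ≤ m → B 3 (2 * m + 1) = Pool.Agent.H12.Walk.cf m := fun m hm =>
    (Pool.Agent.H12.Walk.B_eq m).trans (Pool.Agent.H12.Walk.closed m hm)
  refine ⟨Pool.Agent.H12.Walk.X_finite, h, fun C hC => ?_, fun m hm => ?_, ?_⟩
  · filter_upwards [Pool.Agent.H12.Walk.small C hC, eventually_ge_atTop 2] with m h1 h2
    rwa [h m h2, abs_of_pos (Pool.Agent.H12.Walk.cf_pos m h2)]
  · rw [h m hm, abs_of_pos (Pool.Agent.H12.Walk.cf_pos m hm)]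
    exact Pool.Agent.H12.Walk.le_cf m hm
  · refine Pool.Agent.H12.Walk.asym.congr' ?_
    filter_upwards [eventually_ge_atTop 2] with m hm
    rw [h m hm]

end Pool.Agent.Results.MP_46c8ea_co.ClosedForm
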